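import Mathlib

/-!
# The maximal number of complete extensions of an argumentation framework

An argumentation framework with `n` arguments has at most `3^(n/2)` complete extensions if `n` is even
and at most `4 * 3^((n-3)/2)` if `n ≥ 3` is odd. Both bounds are attained.

Proof. We count, more generally, for disjoint sets `U` (free arguments) and `X` (arguments which are
forbidden to be in the extension) the sets `S ⊆ U` which are conflict-free and contain exactly the
arguments of `U` that they defend against `U ∪ X`. If `a ∈ U` has a neighbour in `U`, the sets `S`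
containing `a` are counted by the framework without `a` and its neighbours, and the other ones by the
framework in which `a` is moved from `U` to `X`. If there are no attacks inside `U`, then `S` is determined
by the subset of `X` which it attacks. This gives the bound `B u k`, `u = |U|`, `k = |X|`, by induction.
-/

set_option autoImplicit false

open Finset

namespace Pool.Agent.Results.MP_acab80_co.MaxComplete

/-- `S` defends `a`: every attacker of `a` is attacked by an element of `S`. -/
def Defends {A : Type*} (R : A → A → Prop) (S : Set A) (a : A) : Prop :=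
  ∀ b, R b a → ∃ c ∈ S, R c b

/-- `S` is a complete extension of the argumentation framework `(A, R)`, `R a b` meaning that `a` attacks
`b`: it is conflict-free, defends each of its elements and contains every argument which it defends. -/
def IsComplete {A : Type*} (R : A → A → Prop) (S : Set A) : Prop :=
  (∀ a ∈ S, ∀ b ∈ S, ¬ R a b) ∧ (∀ a ∈ S, Defends R S a) ∧ ∀ a, Defends R S a → a ∈ S

/-- The bound for `u` free and `k` forbidden arguments. -/
def B (u k : ℕ) : ℕ :=
  if u ≤ k then 2 ^ u
  else if (u - k) % 2 = 0 then 2 ^ k * 3 ^ ((u - k) / 2)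
  else if k = 0 then (if u = 1 then 1 else 4 * 3 ^ ((u - 3) / 2))
  else 2 ^ (k - 1) * 3 ^ ((u - k + 1) / 2)

theorem B_le {u k : ℕ} (h : u ≤ k) : B u k = 2 ^ u := by
  unfold B; rw [if_pos h]

theorem B_even (k m : ℕ) : B (k + 2 * m) k = 2 ^ k * 3 ^ m := by
  rcases Nat.eq_zero_or_pos m with h | h
  · subst h; rw [B_le (by omega)]; simp
  · unfold B
    rw [if_neg (by omega), if_pos (by omega)]
    congr 2; omega

theorem B_odd (k m : ℕ) : B (k + 1 + 2 * m + 1) (k + 1) = 2 ^ k * 3 ^ (m + 1) := by
  unfold B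
  rw [if_neg (by omega), if_neg (by omega), if_neg (by omega)]
  congr 2; omega

theorem B_zero (m : ℕ) : B (2 * m + 3) 0 = 4 * 3 ^ m := by
  unfold B
  rw [if_neg (by omega), if_neg (by omega), if_pos rfl, if_neg (by omega)]
  congr 2; omega

theorem B_one : B 1 0 = 1 := by decide

/-- the possible shapes of a pair `(u, k)` -/
theorem shape (u k : ℕ) : u ≤ k ∨ (∃ m, u = k + 2 * m) ∨ (∃ k' m, k = k' + 1 ∧ u = k' + 1 + 2 * m + 1) ∨
    (k = 0 ∧ u = 1) ∨ (k = 0 ∧ ∃ m, u = 2 * m + 3) := by
  by_cases h : u ≤ k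
  · exact Or.inl h
  · rcases Nat.even_or_odd' (u - k) with ⟨m, hm | hm⟩
    · exact Or.inr (Or.inl ⟨m, by omega⟩)
    · rcases Nat.eq_zero_or_pos k with hk | hk
      · rcases Nat.eq_zero_or_pos m with h0 | h0
        · exact Or.inr (Or.inr (Or.inr (Or.inl ⟨hk, by omega⟩)))
        · exact Or.inr (Or.inr (Or.inr (Or.inr ⟨hk, m - 1, by omega⟩)))
      · exact Or.inr (Or.inr (Or.inl ⟨k - 1, m, by omega, by omega⟩))

theorem B_mono_left (u k : ℕ) : B u k ≤ B (u + 1) k := by
  rcases shape u k with h | ⟨m, h⟩ | ⟨k', m, hk, h⟩ | ⟨hk, h⟩ | ⟨hk, m, h⟩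
  · rcases Nat.lt_or_ge u k with h1 | h1
    · rw [B_le h, B_le (by omega)]; exact Nat.pow_le_pow_right (by norm_num) (by omega)
    · have : u = k := by omega
      subst this
      rw [B_le le_rfl]
      rcases Nat.eq_zero_or_pos u with h0 | h0
      · subst h0; rw [B_one]; norm_num
      · obtain ⟨j, rfl⟩ : ∃ j, u = j + 1 := ⟨u - 1, by omega⟩
        have := B_odd j 0
        simp only [mul_zero, add_zero, zero_add, pow_one] at this
        rw [this, pow_succ]; omega
  · subst h
    rw [B_even]
    rcases Nat.eq_zero_or_pos k with h0 | h0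
    · subst h0
      rcases Nat.eq_zero_or_pos m with h1 | h1
      · subst h1; simp [B_one]
      · obtain ⟨j, rfl⟩ : ∃ j, m = j + 1 := ⟨m - 1, by omega⟩
        have := B_zero j
        rw [show 0 + 2 * (j + 1) + 1 = 2 * j + 3 by ring, this, pow_succ]; omega
    · obtain ⟨j, rfl⟩ : ∃ j, k = j + 1 := ⟨k - 1, by omega⟩
      rw [B_odd, pow_succ, pow_succ]
      nlinarith [Nat.zero_le (2 ^ j * 3 ^ m)]
  · subst hk; subst h
    rw [B_odd, show k' + 1 + 2 * m + 1 + 1 = k' + 1 + 2 * (m + 1) by ring, B_even, pow_succ 2]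
    nlinarith [Nat.zero_le (2 ^ k' * 3 ^ (m + 1))]
  · subst hk; subst h
    rw [B_one]
    have := B_even 0 1
    simp at this
    rw [this]; norm_num
  · subst hk; subst h
    rw [B_zero, show 2 * m + 3 + 1 = 0 + 2 * (m + 2) by ring, B_even, pow_add]
    norm_num
    nlinarith [Nat.zero_le (3 ^ m)]

theorem B_mono_right (u k : ℕ) : B u k ≤ B u (k + 1) := by
  rcases shape u k with h | ⟨m, h⟩ | ⟨k', m, hk, h⟩ | ⟨hk, h⟩ | ⟨hk, m, h⟩
  · rw [B_le h, B_le (by omega)]
  · subst h
    rw [B_even]
    rcases Nat.eq_zero_or_pos m with h1 | h1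
    · subst h1; rw [B_le (by omega)]; simp
    · obtain ⟨j, rfl⟩ : ∃ j, m = j + 1 := ⟨m - 1, by omega⟩
      rw [show k + 2 * (j + 1) = k + 1 + 2 * j + 1 by ring, B_odd]
  · subst hk; subst h
    rw [B_odd, show k' + 1 + 2 * m + 1 = (k' + 1 + 1) + 2 * m by ring, B_even, pow_succ 3, pow_succ 2,
      pow_succ 2]
    nlinarith [Nat.zero_le (2 ^ k' * 3 ^ m)]
  · subst hk; subst h
    rw [B_one, B_le (by omega)]; norm_num
  · subst hk; subst h
    have := B_even 1 (m + 1)
    rw [B_zero, show 2 * m + 3 = 1 + 2 * (m + 1) by ring, this, pow_succ 3]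
    omega

theorem B_mono {u u' k k' : ℕ} (hu : u ≤ u') (hk : k ≤ k') : B u k ≤ B u' k' := by
  have h1 : B u k ≤ B u' k := monotone_nat_of_le_succ (f := fun v => B v k) (fun v => B_mono_left v k) hu
  have h2 : B u' k ≤ B u' k' := monotone_nat_of_le_succ (f := fun v => B u' v) (fun v => B_mono_right u' v) hk
  exact h1.trans h2

theorem B_pos (u k : ℕ) : 1 ≤ B u k := by
  calc 1 = B 0 k := by rw [B_le (Nat.zero_le _)]; rfl
    _ ≤ B u k := B_mono (Nat.zero_le _) le_rfl

/-- the recursion, apart from the case `k = 0` and `u` odd -/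
theorem B_rec {u k : ℕ} (h : k ≠ 0 ∨ u % 2 = 0) : B u k + B (u + 1) (k + 1) ≤ B (u + 2) k := by
  rcases shape (u + 2) k with h' | ⟨m, h'⟩ | ⟨k', m, hk, h'⟩ | ⟨hk, h'⟩ | ⟨hk, m, h'⟩
  · rw [B_le h', B_le (by omega), B_le (by omega), pow_succ 2 (u + 1), pow_succ 2 u]
    nlinarith [Nat.zero_le (2 ^ u)]
  · rw [h', B_even]
    rcases Nat.eq_zero_or_pos m with h1 | h1
    · subst h1
      rw [B_le (by omega), B_le (by omega), show k = u + 2 by omega, pow_succ 2 (u + 1), pow_succ 2 u]
      nlinarith [Nat.zero_le (2 ^ u)]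
    · obtain ⟨j, rfl⟩ : ∃ j, m = j + 1 := ⟨m - 1, by omega⟩
      rw [show u + 1 = (k + 1) + 2 * j by omega, B_even, show u = k + 2 * j by omega, B_even]
      rw [pow_succ 3, pow_succ 2]
      nlinarith [Nat.zero_le (2 ^ k * 3 ^ j)]
  · subst hk
    rw [h', B_odd]
    rcases Nat.eq_zero_or_pos m with h1 | h1
    · subst h1
      rw [B_le (by omega), B_le (by omega), show u = k' by omega, pow_succ 2]
      simp
      nlinarith [Nat.zero_le (2 ^ k')]
    · obtain ⟨j, rfl⟩ : ∃ j, m = j + 1 := ⟨m - 1, by omega⟩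
      rw [show u = k' + 1 + 2 * j + 1 by omega, B_odd,
        show k' + 1 + 2 * j + 1 + 1 = (k' + 1) + 1 + 2 * j + 1 by ring, B_odd]
      rw [pow_succ 3 (j + 1), pow_succ 2]
      nlinarith [Nat.zero_le (2 ^ k' * 3 ^ (j + 1))]
  · omega
  · omega

/-- the recursion for `k = 0` and `u` odd -/
theorem B_rec' (m : ℕ) : B (2 * m) 0 + B (2 * m + 2) 1 ≤ B (2 * m + 3) 0 := by
  have h1 := B_even 0 m
  have h2 := B_odd 0 m
  rw [show 0 + 2 * m = 2 * m by ring] at h1
  rw [show 0 + 1 + 2 * m + 1 = 2 * m + 2 by ring] at h2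
  rw [h1, h2, B_zero, pow_succ]
  omega

theorem B_move (u k : ℕ) : B u (k + 1) ≤ B (u + 1) k := by
  rcases Nat.eq_zero_or_pos u with h0 | h0
  · subst h0; rw [B_le (Nat.zero_le _)]; exact B_pos _ _
  obtain ⟨v, rfl⟩ : ∃ v, u = v + 1 := ⟨u - 1, by omega⟩
  by_cases h : k ≠ 0 ∨ v % 2 = 0
  · exact (Nat.le_add_left _ _).trans (B_rec h)
  · push Not at h
    obtain ⟨hk, hv⟩ := h
    subst hk
    obtain ⟨m, hm⟩ : ∃ m, v + 1 + 1 = 2 * m + 3 := ⟨(v - 1) / 2, by omega⟩
    rw [hm, show v + 1 = 2 * m + 2 by omega]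
    exact (Nat.le_add_left _ _).trans (B_rec' m)

theorem B_indep (u k : ℕ) : min (2 ^ u) (2 ^ k) ≤ B u k := by
  rcases Nat.lt_or_ge k u with h | h
  · calc min (2 ^ u) (2 ^ k) ≤ 2 ^ k := min_le_right _ _
      _ = B k k := (B_le le_rfl).symm
      _ ≤ B u k := B_mono h.le le_rfl
  · rw [B_le h]; exact min_le_left _ _

theorem B_le_zero (u k : ℕ) : B u k ≤ B (u + k) 0 := by
  induction k generalizing u with
  | zero => simp
  | succ k ih =>
    calc B u (k + 1) ≤ B (u + 1) k := B_move u k
      _ ≤ B (u + 1 + k) 0 := ih (u + 1)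
      _ = B (u + (k + 1)) 0 := by congr 1; ring

section main

open Classical

variable {A : Type*} (R : A → A → Prop)

/-- the sets to be counted: `U` are the free arguments and `X` the forbidden ones -/
noncomputable def C (U X : Finset A) : Finset (Finset A) :=
  U.powerset.filter fun S => (∀ a ∈ S, ∀ b ∈ S, ¬ R a b) ∧
    ∀ a ∈ U, (a ∈ S ↔ ∀ b ∈ U ∪ X, R b a → ∃ c ∈ S, R c b)

variable {R}

theorem mem_C {U X S : Finset A} : S ∈ C R U X ↔ S ⊆ U ∧ (∀ a ∈ S, ∀ b ∈ S, ¬ R a b) ∧
    ∀ a ∈ U, (a ∈ S ↔ ∀ b ∈ U ∪ X, R b a → ∃ c ∈ S, R c b) := by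
  unfold C
  rw [mem_filter, mem_powerset]

theorem move {U X S : Finset A} {a : A} (ha : a ∈ U) (hS : S ∈ C R U X) (haS : a ∉ S) :
    S ∈ C R (U.erase a) (insert a X) := by
  rw [mem_C] at hS ⊢
  obtain ⟨h1, h2, h3⟩ := hS
  have hU : U.erase a ∪ insert a X = U ∪ X := by
    ext b
    simp only [mem_union, mem_erase, mem_insert]
    by_cases hb : b = a
    · subst hb; simp [ha]
    · simp [hb]
  refine ⟨fun b hb => mem_erase.2 ⟨fun h => haS (h ▸ hb), h1 hb⟩, h2, fun c hc => ?_⟩
  rw [hU]
  exact h3 c (mem_of_mem_erase hc)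

/-- the elements of `V` which are different from `a` and not a neighbour of `a` -/
noncomputable def far (R : A → A → Prop) (a : A) (V : Finset A) : Finset A :=
  V.filter fun b => b ≠ a ∧ ¬ R a b ∧ ¬ R b a

theorem take {U X S : Finset A} {a : A} (ha : a ∈ U) (hS : S ∈ C R U X)
    (haS : a ∈ S) : S.erase a ∈ C R (far R a U) (far R a X) := by
  rw [mem_C] at hS ⊢
  obtain ⟨h1, h2, h3⟩ := hS
  refine ⟨fun b hb => ?_, fun b hb c hc => h2 b (mem_of_mem_erase hb) c (mem_of_mem_erase hc),
    fun c hc => ?_⟩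
  · have hb' := mem_of_mem_erase hb
    exact mem_filter.2 ⟨h1 hb', ne_of_mem_erase hb, h2 a haS b hb', h2 b hb' a haS⟩
  · obtain ⟨hcU, hca, hac, hca'⟩ := mem_filter.1 hc
    rw [mem_erase, and_iff_right hca, h3 c hcU]
    constructor
    · intro h b hb hbc
      have hb' : b ∈ U ∪ X ∧ ¬ R a b := by
        rcases mem_union.1 hb with h' | h'
        · exact ⟨mem_union_left _ (mem_filter.1 h').1, (mem_filter.1 h').2.2.1⟩
        · exact ⟨mem_union_right _ (mem_filter.1 h').1, (mem_filter.1 h').2.2.1⟩
      obtain ⟨s, hs, hsb⟩ := h b hb'.1 hbc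
      exact ⟨s, mem_erase.2 ⟨fun e => hb'.2 (e ▸ hsb), hs⟩, hsb⟩
    · intro h b hb hbc
      by_cases hab : R a b
      · exact ⟨a, haS, hab⟩
      by_cases hba : R b a
      · exact (h3 a ha).1 haS b hb hba
      have hne : b ≠ a := fun e => hac (e ▸ hbc)
      have hb' : b ∈ far R a U ∪ far R a X := by
        rcases mem_union.1 hb with h' | h'
        · exact mem_union_left _ (mem_filter.2 ⟨h', hne, hab, hba⟩)
        · exact mem_union_right _ (mem_filter.2 ⟨h', hne, hab, hba⟩)
      obtain ⟨s, hs, hsb⟩ := h b hb' hbc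
      exact ⟨s, mem_of_mem_erase hs, hsb⟩

theorem branch {U X : Finset A} {a : A} (ha : a ∈ U) :
    (C R U X).card ≤ (C R (far R a U) (far R a X)).card +
      ((C R U X).filter fun S => a ∉ S).card := by
  rw [← card_filter_add_card_filter_not (s := C R U X) (fun S => a ∈ S)]
  refine Nat.add_le_add_right ?_ _
  refine card_le_card_of_injOn (fun S => S.erase a) (fun S hS => ?_) (fun S hS T hT h => ?_)
  · have hS' := mem_filter.1 hS
    exact take ha hS'.1 hS'.2
  · have h1 := (mem_filter.1 hS).2
    have h2 := (mem_filter.1 hT).2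
    have h3 : S.erase a = T.erase a := h
    rw [← insert_erase h1, ← insert_erase h2, h3]

theorem branch_not {U X : Finset A} {a : A} (ha : a ∈ U) :
    ((C R U X).filter fun S => a ∉ S).card ≤ (C R (U.erase a) (insert a X)).card :=
  card_le_card fun S hS => move ha (mem_filter.1 hS).1 (mem_filter.1 hS).2

theorem indep {U X : Finset A} (h : ∀ a ∈ U, ∀ b ∈ U, ¬ R a b) :
    (C R U X).card ≤ min (2 ^ U.card) (2 ^ X.card) := by
  refine le_min ?_ ?_
  · rw [← card_powerset]
    exact card_le_card (filter_subset _ _)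
  · rw [← card_powerset]
    refine card_le_card_of_injOn (fun S => X.filter fun x => ∃ c ∈ S, R c x) (fun _ _ => ?_)
      (fun S hS T hT h' => ?_)
    · exact mem_coe.2 (mem_powerset.2 (filter_subset _ _))
    · have key : ∀ S ∈ C R U X, ∀ T ∈ C R U X, (X.filter fun x => ∃ c ∈ S, R c x) =
          (X.filter fun x => ∃ c ∈ T, R c x) → S ⊆ T := by
        intro S hS T hT e a haS
        rw [mem_C] at hS hT
        have haU := hS.1 haS
        rw [hT.2.2 a haU]
        intro b hb hba
        rcases mem_union.1 hb with h1 | h1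
        · exact absurd hba (h b h1 a haU)
        · have h2 : b ∈ X.filter fun x => ∃ c ∈ S, R c x :=
            mem_filter.2 ⟨h1, (hS.2.2 a haU).1 haS b hb hba⟩
          rw [e] at h2
          exact (mem_filter.1 h2).2
      exact Subset.antisymm (key S hS T hT h') (key T hT S hS h'.symm)

/-- the neighbours of `a` in `U` -/
noncomputable def nb (R : A → A → Prop) (a : A) (U : Finset A) : Finset A :=
  U.filter fun b => b ≠ a ∧ (R a b ∨ R b a)

theorem card_far {U : Finset A} {a : A} (ha : a ∈ U) : (far R a U).card + (nb R a U).card + 1 = U.card := by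
  have h : U = insert a (far R a U ∪ nb R a U) := by
    ext b
    unfold far nb
    simp only [mem_insert, mem_union, mem_filter]
    by_cases hb : b = a
    · subst hb; simp [ha]
    · by_cases h1 : R a b <;> by_cases h2 : R b a <;> simp [hb, h1, h2]
  have hd : Disjoint (far R a U) (nb R a U) := by
    rw [disjoint_left]
    intro b h1 h2
    unfold far at h1
    unfold nb at h2
    have h3 := (mem_filter.1 h1).2
    have h4 := (mem_filter.1 h2).2
    tauto
  have hn : a ∉ far R a U ∪ nb R a U := by
    unfold far nb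
    simp
  conv_rhs => rw [h]
  rw [card_insert_of_notMem hn, card_union_of_disjoint hd]

theorem card_far_le {X : Finset A} {a : A} : (far R a X).card ≤ X.card := card_le_card (filter_subset _ _)

theorem even_of_matching {U : Finset A} (h : ∀ a ∈ U, (nb R a U).card = 1) : U.card % 2 = 0 := by
  have h1 : ∀ a ∈ U, ∃ b, nb R a U = {b} := fun a ha => card_eq_one.1 (h a ha)
  choose! g hg using h1
  have hmem : ∀ a ∈ U, g a ∈ nb R a U := fun a ha => by rw [hg a ha]; exact mem_singleton_self _
  have hgU : ∀ a ∈ U, g a ∈ U := fun a ha => (mem_filter.1 (hmem a ha)).1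
  have hne : ∀ a ∈ U, g a ≠ a := fun a ha => (mem_filter.1 (hmem a ha)).2.1
  have hinv : ∀ a ∈ U, g (g a) = a := by
    intro a ha
    have h2 : a ∈ nb R (g a) U := by
      refine mem_filter.2 ⟨ha, (hne a ha).symm, ?_⟩
      have := (mem_filter.1 (hmem a ha)).2.2
      tauto
    rw [hg _ (hgU a ha), mem_singleton] at h2
    exact h2.symm
  have hsum : ∑ _a ∈ U, (1 : ZMod 2) = 0 := by
    refine sum_involution (fun a _ => g a) (fun a _ => by decide) (fun a ha _ => hne a ha)
      (fun a ha => hgU a ha) (fun a ha => hinv a ha)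
  rw [sum_const, nsmul_eq_mul, mul_one, ZMod.natCast_eq_zero_iff] at hsum
  omega

theorem main : ∀ (n : ℕ) (U X : Finset A), Disjoint U X → U.card = n → (C R U X).card ≤ B U.card X.card := by
  intro n
  induction n using Nat.strong_induction_on with
  | _ n ih =>
  intro U X hd hn
  -- the case of a self-attack
  by_cases hself : ∃ a ∈ U, R a a
  · obtain ⟨a, ha, haa⟩ := hself
    have h0 : (C R U X).filter (fun S => a ∉ S) = C R U X := by
      exact filter_true_of_mem fun _ hS haS => (mem_C.1 hS).2.1 a haS a haS haa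
    have haX : a ∉ X := disjoint_left.1 hd ha
    have hd' : Disjoint (U.erase a) (insert a X) := by
      rw [disjoint_insert_right]
      exact ⟨notMem_erase _ _, disjoint_of_subset_left (erase_subset _ _) hd⟩
    have hc : (U.erase a).card + 1 = U.card := card_erase_add_one ha
    calc (C R U X).card = ((C R U X).filter fun S => a ∉ S).card := by rw [h0]
      _ ≤ (C R (U.erase a) (insert a X)).card := branch_not ha
      _ ≤ B (U.erase a).card (insert a X).card := ih _ (by omega) _ _ hd' rfl
      _ = B (U.erase a).card (X.card + 1) := by rw [card_insert_of_notMem haX]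
      _ ≤ B ((U.erase a).card + 1) X.card := B_move _ _
      _ = B U.card X.card := by rw [hc]
  push Not at hself
  -- the general branching
  have hbr : ∀ a ∈ U, (C R U X).card ≤
      B (far R a U).card (far R a X).card + B (U.card - 1) (X.card + 1) := by
    intro a ha
    have haX : a ∉ X := disjoint_left.1 hd ha
    have hd' : Disjoint (U.erase a) (insert a X) := by
      rw [disjoint_insert_right]
      exact ⟨notMem_erase _ _, disjoint_of_subset_left (erase_subset _ _) hd⟩
    have hd'' : Disjoint (far R a U) (far R a X) :=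
      disjoint_of_subset_left (filter_subset _ _) (disjoint_of_subset_right (filter_subset _ _) hd)
    have hc : (U.erase a).card + 1 = U.card := card_erase_add_one ha
    have hf := card_far (R := R) ha
    refine (branch ha).trans (Nat.add_le_add (ih _ (by omega) _ _ hd'' rfl) ?_)
    refine (branch_not ha).trans ((ih _ (by omega) _ _ hd' rfl).trans ?_)
    rw [card_insert_of_notMem haX, show (U.erase a).card = U.card - 1 by omega]
  -- no attacks in `U`
  by_cases hind : ∀ a ∈ U, nb R a U = ∅
  · refine (indep fun a ha b hb hab => ?_).trans (B_indep _ _)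
    have hne : b ≠ a := fun e => hself a ha (e ▸ hab)
    have : b ∈ nb R a U := mem_filter.2 ⟨hb, hne, Or.inl hab⟩
    rw [hind a ha] at this
    exact absurd this (notMem_empty _)
  push Not at hind
  obtain ⟨a, ha, hna⟩ := hind
  have hna' : 1 ≤ (nb R a U).card := card_pos.2 hna
  have hf := card_far (R := R) ha
  by_cases hk : X.card ≠ 0 ∨ U.card % 2 = 0
  · obtain ⟨v, hv⟩ : ∃ v, U.card = v + 2 := ⟨U.card - 2, by omega⟩
    calc (C R U X).card ≤ B (far R a U).card (far R a X).card + B (U.card - 1) (X.card + 1) := hbr a ha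
      _ ≤ B v X.card + B (v + 1) (X.card + 1) := by
          refine Nat.add_le_add (B_mono (by omega) card_far_le) (B_mono (by omega) le_rfl)
      _ ≤ B (v + 2) X.card := B_rec (by omega)
      _ = B U.card X.card := by rw [hv]
  push Not at hk
  obtain ⟨hX, hodd⟩ := hk
  have hX' : X = ∅ := card_eq_zero.1 hX
  obtain ⟨m, hm⟩ : ∃ m, U.card = 2 * m + 3 := ⟨(U.card - 3) / 2, by omega⟩
  by_cases hbig : ∃ b ∈ U, 2 ≤ (nb R b U).card
  · obtain ⟨b, hb, hnb⟩ := hbig
    have hf' := card_far (R := R) hb
    calc (C R U X).card ≤ B (far R b U).card (far R b X).card + B (U.card - 1) (X.card + 1) := hbr b hb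
      _ ≤ B (2 * m) 0 + B (2 * m + 2) 1 := by
          refine Nat.add_le_add (B_mono (by omega) ?_) (B_mono (by omega) (by omega))
          exact card_far_le.trans hX.le
      _ ≤ B (2 * m + 3) 0 := B_rec' m
      _ = B U.card X.card := by rw [hm, hX]
  push Not at hbig
  -- there is an isolated argument
  obtain ⟨c, hc, hc0⟩ : ∃ c ∈ U, (nb R c U).card = 0 := by
    by_contra hcon
    push Not at hcon
    have := even_of_matching (R := R) (U := U) fun b hb => by
      have h1 := hbig b hb
      have h2 := hcon b hb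
      omega
    omega
  have hc0' : nb R c U = ∅ := card_eq_zero.1 hc0
  have hf' := card_far (R := R) hc
  have hnone : ((C R U X).filter fun S => c ∉ S) = ∅ := by
    rw [filter_eq_empty_iff]
    intro S hS
    rw [not_not, (mem_C.1 hS).2.2 c hc]
    intro b hb hbc
    rw [hX', union_empty] at hb
    have hne : b ≠ c := fun e => hself c hc (e ▸ hbc)
    have : b ∈ nb R c U := mem_filter.2 ⟨hb, hne, Or.inr hbc⟩
    rw [hc0'] at this
    exact absurd this (notMem_empty _)
  have hd'' : Disjoint (far R c U) (far R c X) :=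
    disjoint_of_subset_left (filter_subset _ _) (disjoint_of_subset_right (filter_subset _ _) hd)
  have hb := branch (R := R) (X := X) hc
  rw [hnone, card_empty, add_zero] at hb
  exact hb.trans ((ih _ (by omega) _ _ hd'' rfl).trans (B_mono (by omega) card_far_le))

end main

/-- the conjectured value -/
def value (n : ℕ) : ℕ :=
  if n ≤ 1 then 1 else if n % 2 = 0 then 3 ^ (n / 2) else 4 * 3 ^ ((n - 3) / 2)

theorem B_value (n : ℕ) : B n 0 = value n := by
  unfold value
  rcases shape n 0 with h | ⟨m, h⟩ | ⟨k', m, hk, h⟩ | ⟨hk, h⟩ | ⟨hk, m, h⟩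
  · have : n = 0 := by omega
    subst this
    rfl
  · rw [h, B_even]
    rcases Nat.eq_zero_or_pos m with h0 | h0
    · subst h0; simp
    · rw [if_neg (by omega), if_pos (by omega), show (0 + 2 * m) / 2 = m by omega]; simp
  · omega
  · rw [h]; rfl
  · rw [h, B_zero, if_neg (by omega), if_neg (by omega), show (2 * m + 3 - 3) / 2 = m by omega]

open Classical in
theorem upper {A : Type*} [Finite A] (R : A → A → Prop) :
    {S : Set A | IsComplete R S}.ncard ≤ value (Nat.card A) := by
  have := Fintype.ofFinite A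
  have h : {S : Set A | IsComplete R S} = (fun S : Finset A => (S : Set A)) '' (C R univ ∅ : Finset (Finset A)) := by
    ext S
    simp only [Set.mem_ofPred_eq, Set.mem_image, mem_coe, mem_C]
    constructor
    · rintro ⟨h1, h2, h3⟩
      refine ⟨S.toFinset, ⟨subset_univ _, ?_, ?_⟩, by simp⟩
      · simpa using h1
      · intro a _
        simp only [Set.mem_toFinset, union_empty, mem_univ, forall_const]
        exact ⟨fun ha => h2 a ha, fun ha => h3 a ha⟩
    · rintro ⟨T, ⟨-, h1, h2⟩, rfl⟩
      simp only [union_empty, mem_univ, forall_const] at h2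
      exact ⟨h1, fun a ha => (h2 a).1 ha, fun a ha => (h2 a).2 ha⟩
  rw [h, Set.ncard_image_of_injective _ coe_injective, Set.ncard_coe_finset, ← B_value]
  have := main (R := R) _ univ ∅ (disjoint_empty_right _) rfl
  rwa [card_empty, card_univ, ← Nat.card_eq_fintype_card] at this

/-- in a disjoint union of cliques (with mutual attacks) of sizes `c i ≥ 2` every choice of at most one
argument of each clique is a complete extension -/
theorem lower {m : ℕ} (c : Fin m → ℕ) (hc : ∀ i, 2 ≤ c i) :
    ∏ i, (c i + 1) ≤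
      {S : Set (Σ i, Fin (c i)) | IsComplete (fun x y => x ≠ y ∧ x.1 = y.1) S}.ncard := by
  set F : (∀ i, Option (Fin (c i))) → Set (Σ i, Fin (c i)) := fun f => {x | f x.1 = some x.2} with hF
  have hinj : Function.Injective F := by
    intro f g hfg
    funext i
    have h : ∀ k : Fin (c i), f i = some k ↔ g i = some k := by
      intro k
      have h1 : (⟨i, k⟩ : Σ i, Fin (c i)) ∈ F f ↔ (⟨i, k⟩ : Σ i, Fin (c i)) ∈ F g := by rw [hfg]
      exact h1
    cases hg : g i with
    | none =>
      cases hf : f i with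
      | none => rfl
      | some k => exact absurd ((h k).1 hf) (by rw [hg]; simp)
    | some k => exact (h k).2 hg
  have huniq : ∀ (f : ∀ i, Option (Fin (c i))) (x y : Σ i, Fin (c i)), x ∈ F f → y ∈ F f → x.1 = y.1 → x = y := by
    rintro f ⟨i, k⟩ ⟨j, l⟩ hx hy hij
    obtain rfl : i = j := hij
    have h1 : f i = some k := hx
    have h2 : f i = some l := hy
    rw [h1] at h2
    obtain rfl := Option.some.inj h2
    rfl
  have hsub : F '' Set.univ ⊆ {S : Set (Σ i, Fin (c i)) | IsComplete (fun x y => x ≠ y ∧ x.1 = y.1) S} := by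
    rintro _ ⟨f, -, rfl⟩
    refine ⟨fun a ha b hb hab => hab.1 (huniq f a b ha hb hab.2), fun a ha b hab => ?_, fun a hdef => ?_⟩
    · exact ⟨a, ha, hab.1.symm, hab.2.symm⟩
    · obtain ⟨b, hb1, hb2⟩ : ∃ b : Σ i, Fin (c i), b ≠ a ∧ b.1 = a.1 := by
        obtain ⟨i, k⟩ := a
        have : Nontrivial (Fin (c i)) := Fin.nontrivial_iff_two_le.2 (hc i)
        obtain ⟨l, hl⟩ := exists_ne k
        exact ⟨⟨i, l⟩, fun e => hl (eq_of_heq (Sigma.mk.inj e).2), rfl⟩
      obtain ⟨d, hd, hdb, hd'⟩ := hdef b ⟨hb1, hb2⟩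
      by_cases hda : d = a
      · exact hda ▸ hd
      · obtain ⟨e, he, hed, he'⟩ := hdef d ⟨hda, hd'.trans hb2⟩
        exact absurd (huniq f e d he hd he') hed
  have hcard : (F '' Set.univ).ncard = ∏ i, (c i + 1) := by
    rw [Set.ncard_image_of_injective _ hinj, Set.ncard_univ, Nat.card_eq_fintype_card, Fintype.card_pi]
    simp
  rw [← hcard]
  exact Set.ncard_le_ncard hsub (Set.toFinite _)

/-- **Main theorem.** For every `n` the maximal number of complete extensions of an argumentation framework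
with `n` arguments is `1` for `n ≤ 1`, `3 ^ (n / 2)` for even `n` and `4 * 3 ^ ((n - 3) / 2)` for odd
`n ≥ 3`. -/
theorem result (n : ℕ) :
    IsGreatest {N : ℕ | ∃ (A : Type) (_ : Finite A) (R : A → A → Prop), Nat.card A = n ∧
        N = {S : Set A | IsComplete R S}.ncard}
      (if n ≤ 1 then 1 else if Even n then 3 ^ (n / 2) else 4 * 3 ^ ((n - 3) / 2)) := by
  have hv : (if n ≤ 1 then 1 else if Even n then 3 ^ (n / 2) else 4 * 3 ^ ((n - 3) / 2)) = value n := by
    unfold value
    simp only [Nat.even_iff]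
  rw [hv]
  constructor
  · -- the lower bound
    suffices h : ∃ (A : Type) (_ : Finite A) (R : A → A → Prop), Nat.card A = n ∧
        value n ≤ {S : Set A | IsComplete R S}.ncard by
      obtain ⟨A, hA, R, h1, h2⟩ := h
      refine ⟨A, hA, R, h1, le_antisymm h2 ?_⟩
      rw [← h1]
      exact upper R
    by_cases h1 : n = 1
    · subst h1
      refine ⟨Unit, inferInstance, fun _ _ => False, by simp, ?_⟩
      have : (Set.univ : Set Unit) ∈ {S : Set Unit | IsComplete (fun _ _ => False) S} :=
        ⟨fun _ _ _ _ h => h, fun _ _ _ h => absurd h id, fun _ _ => trivial⟩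
      exact Nat.one_le_iff_ne_zero.2 (Set.ncard_ne_zero_of_mem this (Set.toFinite _))
    by_cases h2 : n % 2 = 0
    · refine ⟨Σ _ : Fin (n / 2), Fin 2, inferInstance, _, ?_, le_trans ?_
        (lower (fun _ : Fin (n / 2) => 2) fun _ => le_rfl)⟩
      · rw [Nat.card_eq_fintype_card]
        simp
        omega
      · unfold value
        split_ifs with h3
        · exact Nat.one_le_iff_ne_zero.2 (by simp)
        · simp
    · refine ⟨Σ i : Fin ((n - 3) / 2 + 1), Fin ((Fin.cons 3 fun _ => 2 : Fin ((n - 3) / 2 + 1) → ℕ) i),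
        inferInstance, _, ?_, le_trans ?_ (lower (Fin.cons 3 fun _ => 2 : Fin ((n - 3) / 2 + 1) → ℕ) ?_)⟩
      · rw [Nat.card_eq_fintype_card, Fintype.card_sigma]
        simp only [Fintype.card_fin, Fin.sum_univ_succ, Fin.cons_zero, Fin.cons_succ, sum_const, card_univ,
          smul_eq_mul]
        omega
      · unfold value
        rw [if_neg (by omega), if_neg h2, Fin.prod_univ_succ]
        simp
      · intro i
        refine Fin.cases ?_ (fun j => ?_) i
        · simp
        · simp
  · rintro N ⟨A, hA, R, h1, rfl⟩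
    rw [← h1]
    exact upper R

end Pool.Agent.Results.MP_acab80_co.MaxComplete
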